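import Pool.Agent.Lib.MP_b37156_an.Main

/-!
Spectrum of the Hilbert matrix on the power-weighted sequence spaces `ℓ_2(α)`.

`L2w α` is `ℓ_2(α)`, realised as `L²(ℕ, wt α)` where the measure `wt α` gives `{n}` the mass
`(n+1)^α`.  `ActsAsHilbertMatrix H` says that the bounded operator `H` on `ℓ_2(α)` is given by
`(H a)_m = ∑ a_n / (m + n + 1)`.
-/

namespace Pool.Agent.Results.MP_b37156_an.Spectrum

open Pool.Agent.Lib.MP_b37156_an

/-- The Hilbert matrix is bounded on `ℓ_2(α)` exactly when `|α| < 1`, and then its spectrum is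
`{0} ∪ {π / sin (π μ) : |Re μ - 1/2| ≤ |α|/2}`. -/
theorem result (α : ℝ) :
    ((∃ H : L2w α →L[ℂ] L2w α, ActsAsHilbertMatrix H) ↔ |α| < 1) ∧
    ∀ H : L2w α →L[ℂ] L2w α, ActsAsHilbertMatrix H → spectrum ℂ H = spectralRegion α :=
  main' α

end Pool.Agent.Results.MP_b37156_an.Spectrum
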